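import Mathlib
import Pool.Agent.Helper65.SL.Base

set_option maxSynthPendingDepth 3
set_option linter.unusedSectionVars false
set_option linter.deprecated false
set_option linter.unusedVariables false

namespace Pool.Agent.Helper79.SL

open Filter Topology
open scoped ContDiff Manifold
open Pool.Agent.Helper65.SL Pool.Agent.Helper23.Ric

section coordinates

variable {E : Type*} [NormedAddCommGroup E] [NormedSpace ℝ E] [FiniteDimensional ℝ E]
variable {G : E → E →L[ℝ] E →L[ℝ] ℝ} {ψ : E → E} {z : E}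

theorem fderiv_comp1 (hψ : ContDiffAt ℝ 3 ψ z) {θ : E → ℝ} (hθ : ContDiffAt ℝ 2 θ (ψ z)) :
    fderiv ℝ (fun y => θ (ψ y)) z = (fderiv ℝ θ (ψ z)).comp (fderiv ℝ ψ z) := by
  have h1 : DifferentiableAt ℝ θ (ψ z) := hθ.differentiableAt (by norm_num)
  have h2 : DifferentiableAt ℝ ψ z := hψ.differentiableAt (by norm_num)
  exact fderiv_comp z h1 h2

theorem fderiv_comp2 (hψ : ContDiffAt ℝ 3 ψ z) {θ : E → ℝ} (hθ : ContDiffAt ℝ 2 θ (ψ z))
    (u v : E) :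
    fderiv ℝ (fderiv ℝ (fun y => θ (ψ y))) z u v =
      fderiv ℝ (fderiv ℝ θ) (ψ z) (fderiv ℝ ψ z u) (fderiv ℝ ψ z v) +
        fderiv ℝ θ (ψ z) (fderiv ℝ (fderiv ℝ ψ) z u v) := by
  have hcont : ContinuousAt ψ z := hψ.continuousAt
  have e1 : ∀ᶠ y in 𝓝 z, ContDiffAt ℝ 3 ψ y := hψ.eventually (by simp)
  have e2 : ∀ᶠ y in 𝓝 z, ContDiffAt ℝ 2 θ (ψ y) :=
    hcont.eventually (hθ.eventually (by simp))
  have heq : fderiv ℝ (fun y => θ (ψ y)) =ᶠ[𝓝 z]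
      fun y => (fderiv ℝ θ (ψ y)).comp (fderiv ℝ ψ y) := by
    filter_upwards [e1, e2] with y h1 h2
    exact fderiv_comp1 h1 h2
  have hψd : HasFDerivAt ψ (fderiv ℝ ψ z) z :=
    (hψ.differentiableAt (by norm_num)).hasFDerivAt
  have hd : HasFDerivAt (fderiv ℝ ψ) (fderiv ℝ (fderiv ℝ ψ) z) z := by
    have : ContDiffAt ℝ 2 (fderiv ℝ ψ) z := hψ.fderiv_right (by norm_num)
    exact (this.differentiableAt (by norm_num)).hasFDerivAt
  have hc0 : HasFDerivAt (fderiv ℝ θ) (fderiv ℝ (fderiv ℝ θ) (ψ z)) (ψ z) := by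
    have : ContDiffAt ℝ 1 (fderiv ℝ θ) (ψ z) := hθ.fderiv_right (by norm_num)
    exact (this.differentiableAt (by norm_num)).hasFDerivAt
  have hc : HasFDerivAt (fun y => fderiv ℝ θ (ψ y))
      ((fderiv ℝ (fderiv ℝ θ) (ψ z)).comp (fderiv ℝ ψ z)) z := hc0.comp z hψd
  have hcd := hc.clm_comp hd
  rw [heq.fderiv_eq, hcd.fderiv]
  simp
  ring

theorem pfi
    (chi : GoodAt (pull ψ G) z ∧ ∀ v w, fderiv ℝ ψ z (chris (pull ψ G) z v w) =
        chris G (ψ z) (fderiv ℝ ψ z v) (fderiv ℝ ψ z w) + fderiv ℝ (fderiv ℝ ψ) z v w)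
    (inv : ∀ v, ricci (pull ψ G) z v v = ricci G (ψ z) (fderiv ℝ ψ z v) (fderiv ℝ ψ z v))
    (hψ : ContDiffAt ℝ 3 ψ z) (h : GoodAt G (ψ z)) {θ : E → ℝ} (hθ : ContDiffAt ℝ 2 θ (ψ z))
    (m : ℕ) (e : Fin m → E) :
    pf m (fun y => θ (ψ y)) (pull ψ G) z e = pf m θ G (ψ z) (fun i => fderiv ℝ ψ z (e i)) := by
  unfold pf
  refine Finset.sum_congr rfl fun i _ => ?_
  have h1 : hess (fun y => θ (ψ y)) (pull ψ G) z (e i) (e i) =
      hess θ G (ψ z) (fderiv ℝ ψ z (e i)) (fderiv ℝ ψ z (e i)) := by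
    unfold hess
    rw [fderiv_comp2 hψ hθ, fderiv_comp1 hψ hθ, ContinuousLinearMap.comp_apply, chi.2,
      map_add]
    ring
  rw [inv, h1, fderiv_comp1 hψ hθ, ContinuousLinearMap.comp_apply]

end coordinates

end Pool.Agent.Helper79.SL
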